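import Pool.Agent.Run7.h347.OW.Iface

/-!
# Project OW, piece R: from the separated open sets to the strong selection principle
-/

set_option autoImplicit false

open Set Filter Topology Pool.Agent.Results.MP_76989b_gt.NotFrechetUrysohn
open Pool.Agent.Run7.h347.OW

namespace Run7.h939.OW

lemma minBounded_diff {X : Type*} [TopologicalSpace X] {U G : Set X} (hU : MinBounded U)
    (hG : IsOpen G) : MinBounded (U \ closure G) := by
  have hC : IsOpen (closure G)ᶜ := isClosed_closure.isOpen_compl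
  refine ⟨?_, ?_⟩
  · rintro x ⟨hxU, hxC⟩
    rw [mem_closure_iff]
    intro O hO hxO
    obtain ⟨y, ⟨hyO, hyC⟩, hyU⟩ :=
      mem_closure_iff.1 (hU.1 hxU) (O ∩ (closure G)ᶜ) (hO.inter hC) ⟨hxO, hxC⟩
    refine ⟨y, hyO, ?_⟩
    rw [mem_interior]
    refine ⟨interior U ∩ (closure G)ᶜ, ?_, isOpen_interior.inter hC, ⟨hyU, hyC⟩⟩
    rintro z ⟨hz1, hz2⟩
    exact ⟨interior_subset hz1, hz2⟩
  · intro x hx
    refine ⟨hU.2 (interior_mono (closure_mono sdiff_subset) hx), ?_⟩
    intro hxC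
    obtain ⟨y, hy1, hy2⟩ := mem_closure_iff.1 hxC _ isOpen_interior hx
    have hy3 : y ∈ closure (U \ closure G) := interior_subset hy1
    obtain ⟨z, hz1, hz2⟩ := mem_closure_iff.1 hy3 G hG hy2
    exact hz2.2 (subset_closure hz1)

theorem t_R {X : Type*} [TopologicalSpace X] : S_T X → S_R X := by
  intro hST hT2 hinf hW hS1 𝒰 h𝒰
  obtain ⟨T, t, hTo, ht, hTd⟩ := hST hT2 hinf hW
  have hfin : ∀ (m : ℕ) (F : Set X), F.Finite →
      ∃ U ∈ 𝒰 m, ∃ j, m ≤ j ∧ (∀ i < m, t i ∈ U) ∧ F ⊆ U \ closure (T j) := by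
    intro m F hF
    obtain ⟨U, hU, hFU⟩ := (h𝒰 m).2.2 (F ∪ t '' {i | i < m})
      (hF.union ((Set.finite_lt_nat m).image t))
    have hJ : (⋃ x ∈ F, {j : ℕ | x ∈ closure (T j)}).Finite := by
      refine hF.biUnion fun x _ => ?_
      refine Set.Subsingleton.finite ?_
      intro a ha b hb
      by_contra hab
      exact Set.disjoint_left.1 (hTd hab) ha hb
    obtain ⟨B, hB⟩ := hJ.bddAbove
    refine ⟨U, hU, max m (B + 1), le_max_left _ _, ?_, ?_⟩
    · intro i hi
      exact hFU (Or.inr ⟨i, hi, rfl⟩)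
    · intro x hx
      refine ⟨hFU (Or.inl hx), ?_⟩
      intro hxc
      have h1 : max m (B + 1) ∈ ⋃ x ∈ F, {j : ℕ | x ∈ closure (T j)} :=
        Set.mem_biUnion hx hxc
      have h2 := hB h1
      have h3 : B + 1 ≤ max m (B + 1) := le_max_right _ _
      omega
  set 𝒱 : ℕ → Set (Set X) := fun m =>
    {S | ∃ U ∈ 𝒰 m, ∃ j, m ≤ j ∧ (∀ i < m, t i ∈ U) ∧ S = U \ closure (T j)} with h𝒱
  have hV : ∀ m, 𝒱 m ∈ OmegaS X := by
    intro m
    have hfin' : ∀ F : Set X, F.Finite → ∃ u ∈ 𝒱 m, F ⊆ u := by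
      intro F hF
      obtain ⟨U, hU, j, hj, hjt, hFU⟩ := hfin m F hF
      exact ⟨U \ closure (T j), ⟨U, hU, j, hj, hjt, rfl⟩, hFU⟩
    refine ⟨?_, ?_, hfin'⟩
    · rw [Set.eq_univ_iff_forall]
      intro x
      obtain ⟨u, hu, hxu⟩ := hfin' {x} (Set.finite_singleton x)
      exact ⟨u, hu, hxu rfl⟩
    · rintro _ ⟨U, hU, j, _, _, rfl⟩
      exact minBounded_diff ((h𝒰 m).2.1 U hU) (hTo j)
  obtain ⟨S, hS, hG⟩ := hS1 𝒱 hV
  choose U hU j hj hjt hSe using hS
  refine ⟨U, hU, ?_⟩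
  have hfib : ∀ u : Set X, {m : ℕ | S m = u}.Finite := by
    intro u
    by_cases hne : ∃ m0, S m0 = u
    · obtain ⟨m0, hm0⟩ := hne
      refine (Set.finite_le_nat (j m0)).subset ?_
      intro m hm
      show m ≤ j m0
      by_contra hcon
      push Not at hcon
      have hm' : S m = u := hm
      have h1 : t (j m0) ∈ closure (T (j m0)) := subset_closure (ht (j m0))
      have h2 : t (j m0) ∉ S m0 := by
        rw [hSe m0]
        exact fun h => h.2 h1
      have h3 : t (j m0) ∈ S m := by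
        rw [hSe m]
        refine ⟨hjt m _ hcon, ?_⟩
        intro h4
        have h5 : j m0 ≠ j m := by
          have := hj m
          omega
        exact Set.disjoint_left.1 (hTd h5) h1 h4
      rw [hm0, ← hm'] at h2
      exact h2 h3
    · refine Set.finite_empty.subset ?_
      intro m hm
      exact hne ⟨m, hm⟩
  intro x
  have hx : {m : ℕ | x ∉ S m}.Finite := by
    refine ((hG.2.2 x).biUnion fun u _ => hfib u).subset ?_
    intro m hm
    exact Set.mem_biUnion (show S m ∈ {u | u ∈ Set.range S ∧ x ∉ u} from ⟨⟨m, rfl⟩, hm⟩) rfl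
  obtain ⟨N, hN⟩ := hx.bddAbove
  rw [eventually_atTop]
  refine ⟨N + 1, fun n hn => ?_⟩
  by_contra hcon
  have h1 : n ∈ {m : ℕ | x ∉ S m} := by
    intro h2
    rw [hSe n] at h2
    exact hcon h2.1
  have := hN h1
  omega

end Run7.h939.OW
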